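import Pool.Agent.N751.CV.Stm

/-!
# Project PX, part EX: a member of the linear system away from finitely many points
-/

set_option autoImplicit false
set_option linter.all false

open Module Polynomial

namespace Pool.Agent.N803.PX

section dim

variable {K A : Type} [Field K] [CommRing A] [IsDomain A] [Algebra K A]
  [Algebra K[X] A] [IsScalarTower K K[X] A] [Module.Finite K[X] A] [FaithfulSMul K[X] A]

/-- `A / p A` is isomorphic to `(K[X] / p)^N`. -/
theorem exists_equiv (p : K[X]) :
    Nonempty ((A ⧸ Ideal.span {algebraMap K[X] A p}) ≃ₗ[K]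
      (Fin (finrank K[X] A) → K[X] ⧸ Ideal.span {p})) := by
  haveI : IsTorsionFree K[X] A := inferInstance
  haveI : Module.Free K[X] A := inferInstance
  let b : Basis (Fin (finrank K[X] A)) K[X] A := Module.finBasis K[X] A
  let I : Ideal A := Ideal.span {algebraMap K[X] A p}
  let f : A →ₗ[K[X]] (Fin (finrank K[X] A) → K[X] ⧸ Ideal.span {p}) :=
    LinearMap.pi fun i => (Submodule.mkQ (Ideal.span {p})) ∘ₗ b.coord i
  have hf : ∀ a i, f a i = Ideal.Quotient.mk (Ideal.span {p}) (b.repr a i) := fun a i => rfl
  have hsurj : Function.Surjective f := by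
    intro y
    choose c hc using fun i => Ideal.Quotient.mk_surjective (y i)
    refine ⟨∑ i, c i • b i, ?_⟩
    funext i
    rw [hf, b.repr_sum_self, hc]
  have hker : LinearMap.ker f = I.restrictScalars K[X] := by
    ext a
    rw [LinearMap.mem_ker, Submodule.restrictScalars_mem, Ideal.mem_span_singleton]
    constructor
    · intro h
      have h1 : ∀ i, ∃ c, b.repr a i = p * c := by
        intro i
        have h2 := congrFun h i
        rw [hf] at h2
        exact Ideal.mem_span_singleton.1 (Ideal.Quotient.eq_zero_iff_mem.1 h2)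
      choose c hc using h1
      refine ⟨∑ i, c i • b i, ?_⟩
      conv_lhs => rw [← b.sum_repr a]
      rw [Finset.mul_sum]
      refine Finset.sum_congr rfl fun i _ => ?_
      rw [hc, mul_smul, Algebra.smul_def]
    · rintro ⟨a', rfl⟩
      funext i
      rw [hf, ← Algebra.smul_def, map_smul]
      show Ideal.Quotient.mk (Ideal.span {p}) (p * b.repr a' i) = 0
      rw [Ideal.Quotient.eq_zero_iff_mem]
      exact Ideal.mem_span_singleton.2 ⟨_, rfl⟩
  let e1 : (A ⧸ I.restrictScalars K[X]) ≃ₗ[K[X]] (Fin (finrank K[X] A) → K[X] ⧸ Ideal.span {p}) :=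
    (Submodule.quotEquivOfEq _ _ hker.symm) ≪≫ₗ f.quotKerEquivOfSurjective hsurj
  let e2 : (A ⧸ I.restrictScalars K[X]) ≃ₗ[K[X]] (A ⧸ I) :=
    Submodule.Quotient.restrictScalarsEquiv K[X] I
  exact ⟨(e2.symm ≪≫ₗ e1).restrictScalars K⟩

end dim

theorem t : Pool.Agent.N751.CV.StmEx := by
  classical
  intro K A _ _ _ _ _ _ _ _ _ m f hf p hp
  obtain ⟨e⟩ := exists_equiv (K := K) (A := A) p
  haveI h0 : Module.Finite K (K[X] ⧸ Ideal.span {p}) := hp.finite_adjoinRoot
  have h1 : FiniteDimensional K (A ⧸ Ideal.span {algebraMap K[X] A p}) :=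
    Module.Finite.equiv e.symm
  refine ⟨h1, ?_, ?_⟩
  · rw [e.finrank_eq, Module.finrank_pi_fintype, Finset.sum_const, Finset.card_univ,
      Fintype.card_fin, finrank_quotient_span_eq_natDegree, smul_eq_mul, mul_comm]
  · set R := A ⧸ Ideal.span {algebraMap K[X] A p} with hR
    let g : Fin m → R := fun i => Ideal.Quotient.mk (Ideal.span {algebraMap K[X] A p}) (f i)
    haveI : IsArtinianRing R := IsArtinianRing.of_finite K R
    have hfin : Finite (MaximalSpectrum R) := inferInstance
    let V : MaximalSpectrum R → Submodule K (Fin m → K) := fun M =>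
      (M.asIdeal.restrictScalars K).comap (Fintype.linearCombination K g)
    have hV : ∀ M, V M ≠ ⊤ := by
      intro M hM
      have h2 : ∀ i, g i ∈ M.asIdeal := by
        intro i
        have h3 : (Pi.single i 1 : Fin m → K) ∈ V M := by rw [hM]; trivial
        have h4 : Fintype.linearCombination K g (Pi.single i 1) ∈ M.asIdeal := h3
        rwa [Fintype.linearCombination_apply_single, one_smul] at h4
      have h5 : Ideal.span (Set.range f) ≤
          M.asIdeal.comap (Ideal.Quotient.mk (Ideal.span {algebraMap K[X] A p})) := by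
        rw [Ideal.span_le]
        rintro _ ⟨i, rfl⟩
        exact h2 i
      rw [hf, top_le_iff] at h5
      exact Ideal.comap_ne_top _ M.isMaximal.ne_top h5
    haveI := Fintype.ofFinite (MaximalSpectrum R)
    have h6 : (⋃ p ∈ (Finset.univ.image V), ((p : Submodule K (Fin m → K)) : Set (Fin m → K))) ≠
        Set.univ := by
      apply Subspace.biUnion_ne_univ_of_top_notMem
      intro h7
      obtain ⟨M, -, hM⟩ := Finset.mem_image.1 h7
      exact hV M hM
    obtain ⟨u, hu⟩ := (Set.ne_univ_iff_exists_notMem _).1 h6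
    have h8 : ∀ M : MaximalSpectrum R, ∑ i, u i • g i ∉ M.asIdeal := by
      intro M hM
      apply hu
      simp only [Set.mem_iUnion]
      exact ⟨V M, Finset.mem_image_of_mem _ (Finset.mem_univ M), hM⟩
    have h9 : IsUnit (∑ i, u i • g i) := by
      by_contra hcon
      obtain ⟨M, hM, hmem⟩ := exists_max_ideal_of_mem_nonunits hcon
      exact h8 ⟨M, hM⟩ hmem
    refine ⟨u, ?_⟩
    exact (h9.map (Algebra.norm K)).ne_zero

end Pool.Agent.N803.PX
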